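import Mathlib

/-!
# MP_1a91b9_nt: infinite sets of twists contain infinite separated sets
-/

set_option autoImplicit false

namespace Pool.Agent.Lib.MP_1a91b9_ntSP

/-- Only finitely many elements of `T` become squares up to the factor `c` in `F`. -/
theorem ker_fin2 {K F : Type} [Field K] [NumberField K] [Field F] [NumberField F] [Algebra K F] {T : Set K}
    (h0 : 0 ∉ T) (hT : ∀ u ∈ T, ∀ u' ∈ T, u ≠ u' → ∀ x : K, x ^ 2 * u' ≠ u) {c : F} (hc : c ≠ 0) :
    {u ∈ T | ∃ x : F, x ^ 2 = c * algebraMap K F u}.Finite := by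
  classical
  have hfd : FiniteDimensional K F := Module.Finite.right ℚ K F
  have hag : Algebra.IsAlgebraic K F := Algebra.IsAlgebraic.of_finite K F
  let Ω := AlgebraicClosure K
  let τ₀ : F →ₐ[K] Ω := IsAlgClosed.lift
  have hτ : Finite (F →ₐ[K] Ω) := inferInstance
  have hex : ∀ u : {u : K // u ∈ T ∧ ∃ x : F, x ^ 2 = c * algebraMap K F u},
      ∃ x : F, x ^ 2 = c * algebraMap K F u.1 := fun u => u.2.2
  choose x hx using hex
  have hx0 : ∀ u, x u ≠ 0 := by
    intro u h
    have h1 := hx u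
    rw [h, zero_pow two_ne_zero] at h1
    have h2 : algebraMap K F u.1 = 0 := (mul_eq_zero.1 h1.symm).resolve_left hc
    exact h0 ((map_eq_zero _).1 h2 ▸ u.2.1)
  -- the quotients of the conjugates
  have hsq : ∀ (τ : F →ₐ[K] Ω) u, (τ (x u) / τ₀ (x u)) ^ 2 = τ c / τ₀ c := by
    intro τ u
    have h1 : (algebraMap K Ω u.1) ≠ 0 := by
      rw [map_ne_zero]
      exact fun h => h0 (h ▸ u.2.1)
    rw [div_pow, ← map_pow, ← map_pow, hx, map_mul, map_mul, AlgHom.commutes, AlgHom.commutes,
      mul_div_mul_right _ _ h1]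
  let f : {u : K // u ∈ T ∧ ∃ x : F, x ^ 2 = c * algebraMap K F u} → (F →ₐ[K] Ω) → Ω :=
    fun u τ => τ (x u) / τ₀ (x u)
  have hfin : (Set.range f).Finite := by
    refine (Set.Finite.pi' (t := fun τ : F →ₐ[K] Ω => {z : Ω | z ^ 2 = τ c / τ₀ c}) fun τ => ?_).subset ?_
    · have h1 : {z : Ω | z ^ 2 = τ c / τ₀ c} ⊆ (Polynomial.nthRoots 2 (τ c / τ₀ c)).toFinset := by
        intro z hz
        rw [Finset.mem_coe, Multiset.mem_toFinset, Polynomial.mem_nthRoots two_pos]
        exact hz
      exact (Finset.finite_toSet _).subset h1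
    · rintro _ ⟨u, rfl⟩ τ
      exact hsq τ u
  have hinj : Function.Injective f := by
    intro u u' h
    by_contra hne
    -- the quotient is fixed by all the embeddings
    obtain ⟨z, hz⟩ : ∃ z : K, algebraMap K F z = x u / x u' := by
      have h1 : ∀ τ : F →ₐ[K] Ω, τ (x u / x u') = τ₀ (x u / x u') := by
        intro τ
        have h2 : τ (x u) / τ₀ (x u) = τ (x u') / τ₀ (x u') := congrFun h τ
        have e1 : τ (x u') ≠ 0 := (map_ne_zero _).2 (hx0 u')
        have e2 : τ₀ (x u') ≠ 0 := (map_ne_zero _).2 (hx0 u')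
        have e3 : τ₀ (x u) ≠ 0 := (map_ne_zero _).2 (hx0 u)
        rw [map_div₀, map_div₀, div_eq_div_iff e1 e2]
        rw [div_eq_div_iff e3 e2] at h2
        rw [h2, mul_comm]
      have h2 : x u / x u' ∈ (⊥ : IntermediateField K F) := by
        have h3 : ∀ y : F, (∀ τ : F →ₐ[K] Ω, τ y = τ₀ y) → y ∈ (⊥ : IntermediateField K F) := by
          intro y hy
          have h4 : (minpoly K y).rootSet Ω ⊆ {τ₀ y} := by
            rw [← Algebra.IsAlgebraic.range_eval_eq_rootSet_minpoly Ω y]
            rintro _ ⟨τ, rfl⟩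
            exact hy τ
          have h5 : (minpoly K y).natDegree ≤ 1 := by
            rw [← Polynomial.card_rootSet_eq_natDegree (K := Ω) (Algebra.IsSeparable.isSeparable K y)
              (IsAlgClosed.splits _), ← Nat.card_eq_fintype_card]
            exact (Set.ncard_le_ncard h4 (Set.finite_singleton _)).trans (Set.ncard_singleton _).le
          have h6 : 0 < (minpoly K y).natDegree := minpoly.natDegree_pos (Algebra.IsIntegral.isIntegral y)
          have h7 : (minpoly K y).natDegree = 1 := by omega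
          obtain ⟨z, hz⟩ := minpoly.natDegree_eq_one_iff.1 h7
          exact IntermediateField.mem_bot.2 ⟨z, hz⟩
        exact h3 _ h1
      exact IntermediateField.mem_bot.1 h2
    refine hT u.1 u.2.1 u'.1 u'.2.1 (fun h => hne (Subtype.ext h)) z ?_
    apply (algebraMap K F).injective
    have h3 : (x u') ^ 2 ≠ 0 := pow_ne_zero _ (hx0 u')
    rw [map_mul, map_pow, hz, div_pow, hx u, hx u']
    have h4 : algebraMap K F u'.1 ≠ 0 := by
      rw [map_ne_zero]
      exact fun h => h0 (h ▸ u'.2.1)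
    field_simp
  have : Finite {u : K // u ∈ T ∧ ∃ x : F, x ^ 2 = c * algebraMap K F u} := by
    have h1 := hfin.to_subtype
    exact Finite.of_injective (Set.rangeFactorization f) fun a b hab => hinj (congrArg Subtype.val hab)
  exact this

theorem inf_sep2 {K F : Type} [Field K] [NumberField K] [Field F] [NumberField F] [Algebra K F] {a : K}
    (ha : a ≠ 0) {T : Set K} (h0 : 0 ∉ T) (hI : T.Infinite)
    (hT : ∀ u ∈ T, ∀ u' ∈ T, u ≠ u' → ∀ x : K, x ^ 2 * u' ≠ u) :
    ∃ T' ⊆ T, T'.Infinite ∧ ∀ u ∈ T', ∀ u' ∈ T', u ≠ u' → ∀ e ∈ ({1, -1, a, -a} : Set K), ∀ x : F,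
      x ^ 2 * algebraMap K F u' ≠ algebraMap K F (e * u) := by
  classical
  -- the relation
  let r : K → K → Prop := fun u u' => u ≠ u' ∧ ∀ e ∈ ({1, -1, a, -a} : Set K), ∀ x : F,
    x ^ 2 * algebraMap K F u' ≠ algebraMap K F (e * u) ∧ x ^ 2 * algebraMap K F u ≠ algebraMap K F (e * u')
  have he0 : ∀ e ∈ ({1, -1, a, -a} : Set K), e ≠ 0 := by
    intro e he
    simp only [Set.mem_insert_iff, Set.mem_singleton_iff] at he
    rcases he with rfl | rfl | rfl | rfl
    · exact one_ne_zero
    · exact neg_ne_zero.2 one_ne_zero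
    · exact ha
    · exact neg_ne_zero.2 ha
  have hfinE : ({1, -1, a, -a} : Set K).Finite := Set.toFinite _
  -- for every `u` only finitely many `u'` are not related
  have hbad : ∀ u ∈ T, {u' ∈ T | ¬ r u u'}.Finite := by
    intro u hu
    have hu0 : u ≠ 0 := fun h => h0 (h ▸ hu)
    have hsub : {u' ∈ T | ¬ r u u'} ⊆ {u} ∪ ⋃ e ∈ ({1, -1, a, -a} : Set K),
        {u' ∈ T | ∃ x : F, x ^ 2 = algebraMap K F (e * u) * algebraMap K F u'} := by
      rintro u' ⟨h1, h2⟩
      by_cases hne : u = u'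
      · left
        exact hne.symm
      right
      have h3 : ∃ e ∈ ({1, -1, a, -a} : Set K), ∃ x : F,
          x ^ 2 * algebraMap K F u' = algebraMap K F (e * u) ∨ x ^ 2 * algebraMap K F u = algebraMap K F (e * u') := by
        by_contra hcon
        apply h2
        refine ⟨hne, fun e he x => ⟨fun h => hcon ⟨e, he, x, Or.inl h⟩, fun h => hcon ⟨e, he, x, Or.inr h⟩⟩⟩
      obtain ⟨e, he, x, h4⟩ := h3
      refine Set.mem_iUnion₂.2 ⟨e, he, h1, ?_⟩
      rcases h4 with h4 | h4
      · refine ⟨x * algebraMap K F u', ?_⟩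
        rw [mul_pow, ← h4]
        ring
      · refine ⟨x * algebraMap K F u, ?_⟩
        rw [mul_pow]
        have h5 : x ^ 2 * algebraMap K F u ^ 2 = x ^ 2 * algebraMap K F u * algebraMap K F u := by ring
        rw [h5, h4, map_mul, map_mul]
        ring
    refine Set.Finite.subset ((Set.finite_singleton u).union (hfinE.biUnion fun e he => ?_)) hsub
    refine ker_fin2 h0 hT ?_
    rw [map_ne_zero]
    exact mul_ne_zero (he0 e he) hu0
  obtain ⟨f, hf1, hf2⟩ := exists_seq_of_forall_finset_exists (fun u => u ∈ T) r (fun s hs => by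
    have h1 : (T \ ⋃ u ∈ s, {u' ∈ T | ¬ r u u'}).Nonempty := by
      refine (hI.sdiff (s.finite_toSet.biUnion fun u hu => hbad u (hs u hu))).nonempty
    obtain ⟨y, hy1, hy2⟩ := h1
    refine ⟨y, hy1, fun x hx => ?_⟩
    by_contra h
    exact hy2 (Set.mem_iUnion₂.2 ⟨x, hx, hy1, h⟩))
  have hinj : Function.Injective f := by
    intro m n hmn
    rcases lt_trichotomy m n with h | h | h
    · exact absurd hmn (hf2 m n h).1
    · exact h
    · exact absurd hmn.symm (hf2 n m h).1
  refine ⟨Set.range f, ?_, Set.infinite_range_of_injective hinj, ?_⟩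
  · rintro _ ⟨m, rfl⟩
    exact hf1 m
  · rintro _ ⟨m, rfl⟩ _ ⟨n, rfl⟩ hne e he x
    rcases lt_trichotomy m n with h | h | h
    · exact ((hf2 m n h).2 e he x).1
    · exact absurd (congrArg f h) hne
    · exact ((hf2 n m h).2 e he x).2

end Pool.Agent.Lib.MP_1a91b9_ntSP
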